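import Pool.Agent.Helper40.Nm.Goals

set_option autoImplicit false

/-!
# Packet LIFTK (`MP_f619a5_ag`): rational points of the special fibre lift to sections
-/

open CategoryTheory AlgebraicGeometry Limits TensorProduct

namespace Pool.Agent.Helper8.Nm

open Pool.Agent.Helper40.Nm

/-- the algebra: a map from a smooth `R`-algebra to the residue field lifts to `R` -/
lemma lift_alg (R C : Type) [CommRing R] [IsLocalRing R]
    [IsAdicComplete (IsLocalRing.maximalIdeal R) R] [CommRing C] (ψ : R →+* C) (hψ : ψ.Smooth)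
    (φ : C →+* IsLocalRing.ResidueField R) (h : φ.comp ψ = IsLocalRing.residue R) :
    ∃ g : C →+* R, g.comp ψ = RingHom.id R ∧ (IsLocalRing.residue R).comp g = φ := by
  let _ : Algebra R C := ψ.toAlgebra
  have hsm : Algebra.Smooth R C := hψ
  let f : C →ₐ[R] R ⧸ IsLocalRing.maximalIdeal R :=
    { (φ : C →+* IsLocalRing.ResidueField R) with
      commutes' := fun r => RingHom.congr_fun h r }
  obtain ⟨g, hg⟩ := Algebra.FormallySmooth.exists_mkₐ_comp_eq_of_isAdicComplete f
  refine ⟨g.toRingHom, ?_, ?_⟩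
  · ext r
    exact g.commutes r
  · ext c
    exact AlgHom.congr_fun hg c

theorem liftk : LIFTK := by
  intro R _ _ _ G hG r
  set k := IsLocalRing.ResidueField R with hk
  set x : G.left := r.left (IsLocalRing.closedPoint k) with hx
  obtain ⟨U, hU, hxU, -⟩ := exists_isAffineOpen_mem_and_subset (X := G.left) (x := x)
    (U := ⊤) trivial
  have hrange : Set.range r.left ⊆ Set.range hU.fromSpec := by
    rw [hU.range_fromSpec]
    rintro _ ⟨y, rfl⟩
    have hy : y = IsLocalRing.closedPoint k := by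
      have : Subsingleton (PrimeSpectrum k) := inferInstance
      exact Subsingleton.elim (α := PrimeSpectrum k) _ _
    rw [hy]
    exact hxU
  let r'' : Spec (CommRingCat.of k) ⟶ Spec Γ(G.left, U) := IsOpenImmersion.lift hU.fromSpec r.left hrange
  have hr'' : r'' ≫ hU.fromSpec = r.left := IsOpenImmersion.lift_fac _ _ _
  obtain ⟨φ, hφ⟩ := Spec.map_surjective r''
  obtain ⟨ψ, hψ⟩ := Spec.map_surjective (hU.fromSpec ≫ G.hom)
  have hsm : ψ.hom.Smooth := by
    rw [← HasRingHomProperty.Spec_iff (P := @Smooth), hψ]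
    infer_instance
  have hG' : r.left ≫ G.hom = Spec.map (CommRingCat.ofHom (IsLocalRing.residue R)) := Over.w r
  have hcomp : Spec.map (ψ ≫ φ) = Spec.map (CommRingCat.ofHom (IsLocalRing.residue R)) := by
    rw [Spec.map_comp, hφ, hψ, ← Category.assoc, hr'', hG']
  have hcomp' : ψ ≫ φ = CommRingCat.ofHom (IsLocalRing.residue R) := Spec.map_injective hcomp
  obtain ⟨g, hg1, hg2⟩ := lift_alg R Γ(G.left, U) ψ.hom hsm φ.hom (by
    have := congrArg CommRingCat.Hom.hom hcomp'
    simpa using this)
  have hg1' : ψ ≫ CommRingCat.ofHom g = CommRingCat.ofHom (RingHom.id R) := by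
    ext y
    exact RingHom.congr_fun hg1 y
  have hg2' : CommRingCat.ofHom g ≫ CommRingCat.ofHom (IsLocalRing.residue R) = φ := by
    ext y
    exact RingHom.congr_fun hg2 y
  refine ⟨Over.homMk (Spec.map (CommRingCat.ofHom g) ≫ hU.fromSpec) ?_, ?_⟩
  · show (Spec.map (CommRingCat.ofHom g) ≫ hU.fromSpec) ≫ G.hom =
      Spec.map (CommRingCat.ofHom (RingHom.id R))
    rw [Category.assoc, ← hψ, ← Spec.map_comp, hg1']
  · apply Over.OverMorphism.ext
    show Spec.map (CommRingCat.ofHom (IsLocalRing.residue R)) ≫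
      (Spec.map (CommRingCat.ofHom g) ≫ hU.fromSpec) = r.left
    rw [← Category.assoc, ← Spec.map_comp, hg2', hφ, hr'']

end Pool.Agent.Helper8.Nm
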