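import Pool.Agent.Helper40.Nm.Goals

open CategoryTheory AlgebraicGeometry Limits TensorProduct

namespace Pool.Agent.Helper8.Nm

open Pool.Agent.Helper40.Nm

section
variable {M E B : Type} [Field M] [Field E] [Algebra M E] [CommRing B] [HopfAlgebra M B] {g : ℕ}
  (Ψ : E ⊗[M] B ≃ₐc[E] MonoidAlgebra E (Multiplicative (Lat g)))

theorem chi_zero : chi Ψ 0 = 1 := by
  rw [chi, ofAdd_zero, ← MonoidAlgebra.one_def, map_one]

theorem chi_add (x y : Lat g) : chi Ψ (x + y) = chi Ψ x * chi Ψ y := by
  rw [chi, chi, chi, ← map_mul, MonoidAlgebra.single_mul_single, one_mul, ofAdd_add]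

theorem comul_chi (x : Lat g) :
    Coalgebra.comul (R := E) (chi Ψ x) = chi Ψ x ⊗ₜ[E] chi Ψ x := by
  have h : IsGroupLikeElem E (chi Ψ x) :=
    (MonoidAlgebra.isGroupLikeElem_single_one (R := E) (A := E) (Multiplicative.ofAdd x)).map
      Ψ.symm
  exact h.comul_eq_tmul_self

theorem evE_tmul (t : B →ₐ[M] M) (e : E) (b : B) :
    evE t (e ⊗ₜ[M] b) = e * algebraMap M E (t b) := by
  simp [evE, Algebra.ofId_apply]

theorem evE_mul (t t' : WithConv (B →ₐ[M] M)) (z : E ⊗[M] B) :
    evE (t * t').ofConv z =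
      Algebra.TensorProduct.lift (evE t.ofConv) (evE t'.ofConv) (fun _ _ => Commute.all _ _)
       (Coalgebra.comul (R := E) z) := by
  have h : evE (t * t').ofConv =
      (Algebra.TensorProduct.lift (evE t.ofConv) (evE t'.ofConv)
        (fun _ _ => Commute.all _ _)).comp (Bialgebra.comulAlgHom E (E ⊗[M] B)) := by
    apply Algebra.TensorProduct.ext
    · ext
    · ext b
      have hb := (Coalgebra.Repr.arbitrary M b).eq
      simp only [AlgHom.coe_comp, Function.comp_apply, AlgHom.coe_restrictScalars',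
        Algebra.TensorProduct.includeRight_apply, Bialgebra.comulAlgHom_apply,
        TensorProduct.comul_tmul, evE_tmul, one_mul, Bialgebra.comul_one]
      rw [AlgHom.convMul_def]
      simp only [AlgHom.coe_comp, Function.comp_apply, Bialgebra.comulAlgHom_apply]
      rw [← hb]
      simp [TensorProduct.tmul_sum, map_sum, Algebra.TensorProduct.one_def, evE_tmul]
  rw [h]; rfl

theorem evE_gal (t : B →ₐ[M] M) (γ : E ≃ₐ[M] E) (z : E ⊗[M] B) :
    evE t (Algebra.TensorProduct.map (γ : E →ₐ[M] E) (AlgHom.id M B) z) = γ (evE t z) := by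
  induction z using TensorProduct.induction_on with
  | zero => simp
  | tmul e b => simp [evE_tmul]
  | add a b ha hb => rw [map_add, map_add, map_add, map_add, ha, hb]

theorem evE_rid (t : B →ₐ[M] M) (z : E ⊗[M] B) :
    Algebra.TensorProduct.rid M E E (Algebra.TensorProduct.map (AlgHom.id M E) t z) = evE t z := by
  induction z using TensorProduct.induction_on with
  | zero => simp
  | tmul e b => simp [evE_tmul, Algebra.smul_def, mul_comm]
  | add a b ha hb => rw [map_add, map_add, map_add, ha, hb]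

theorem evE_inj {t t' : B →ₐ[M] M} (h : ∀ x : Lat g, chr Ψ t x = chr Ψ t' x) : t = t' := by
  have h1 : (evE t).comp (Ψ.symm : MonoidAlgebra E (Multiplicative (Lat g)) →ₐ[E] E ⊗[M] B) =
      (evE t').comp (Ψ.symm : MonoidAlgebra E (Multiplicative (Lat g)) →ₐ[E] E ⊗[M] B) := by
    apply MonoidAlgebra.algHom_ext
    · intro x
      exact h (Multiplicative.toAdd x)
    · ext
  have h2 : (evE t : E ⊗[M] B →ₐ[E] E) = evE t' := by
    apply AlgHom.ext
    intro z
    have := congrArg (fun φ => φ (Ψ z)) h1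
    simpa using this
  apply AlgHom.ext
  intro b
  have h3 := congrArg (fun φ => φ (1 ⊗ₜ[M] b)) h2
  simp only [evE_tmul, one_mul] at h3
  exact (algebraMap M E).injective h3

/-- the character values of a point, as a homomorphism to the units -/
noncomputable def chrHom (t : B →ₐ[M] M) : Multiplicative (Lat g) →* Eˣ :=
  MonoidHom.toHomUnits
    { toFun := fun x => chr Ψ t (Multiplicative.toAdd x)
      map_one' := by rw [toAdd_one, chr, chi_zero, map_one]
      map_mul' := fun x y => by rw [toAdd_mul, chr, chi_add, map_mul]; rfl }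

theorem chrHom_apply (t : B →ₐ[M] M) (x : Lat g) :
    ((chrHom Ψ t (Multiplicative.ofAdd x) : Eˣ) : E) = chr Ψ t x := rfl

end

theorem ptsm : PTS → PTSM := by
  intro hPTS M E B _ _ _ _ _ _ _ g Ψ act hact
  have hmem : ∀ t : B →ₐ[M] M, chrHom Ψ t ∈ EqHom act Eˣ := by
    intro t γ x
    ext
    rw [chrHom_apply, chr, ← hact γ x, evE_gal]
    rfl
  let F : WithConv (B →ₐ[M] M) →ₙ* EqHom act Eˣ :=
    { toFun := fun t => ⟨chrHom Ψ t.ofConv, hmem t.ofConv⟩
      map_mul' := fun t t' => by
        apply Subtype.ext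
        apply MonoidHom.ext
        intro x
        apply Units.ext
        change chr Ψ (t * t').ofConv (Multiplicative.toAdd x) =
          chr Ψ t.ofConv (Multiplicative.toAdd x) * chr Ψ t'.ofConv (Multiplicative.toAdd x)
        rw [chr, evE_mul, comul_chi, Algebra.TensorProduct.lift_tmul]
        rfl }
  have hF : ∀ (t : WithConv (B →ₐ[M] M)) (x : Lat g),
      (((F t : Multiplicative (Lat g) →* Eˣ) (Multiplicative.ofAdd x) : Eˣ) : E) =
        chr Ψ t.ofConv x := fun t x => rfl
  have hinj : Function.Injective F := by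
    intro t t' h
    have : t.ofConv = t'.ofConv := by
      apply evE_inj Ψ
      intro x
      rw [← hF, ← hF, h]
    exact WithConv.ofConv_injective this
  have hsurj : Function.Surjective F := by
    intro ψ
    let ψ' : Multiplicative (Lat g) →* E ⊗[M] M :=
      ((Algebra.TensorProduct.includeLeft : E →ₐ[M] E ⊗[M] M) : E →* E ⊗[M] M).comp
        ((Units.coeHom E).comp (ψ : Multiplicative (Lat g) →* Eˣ))
    have hψ' : ∀ x, ψ' x = (((ψ : Multiplicative (Lat g) →* Eˣ) x : Eˣ) : E) ⊗ₜ[M] 1 :=
      fun x => rfl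
    obtain ⟨t, ht⟩ := hPTS M E B g Ψ act hact M ψ' (by
      intro γ x
      rw [hψ', hψ', Algebra.TensorProduct.map_tmul, ← ψ.2 γ x]
      simp)
    refine ⟨WithConv.toConv t, ?_⟩
    apply Subtype.ext
    apply MonoidHom.ext
    intro x
    apply Units.ext
    change chr Ψ t (Multiplicative.toAdd x) = _
    rw [chr, ← evE_rid, ht, hψ']
    simp
  exact ⟨MulEquiv.ofBijective F ⟨hinj, hsurj⟩, fun t x => hF t x⟩

end Pool.Agent.Helper8.Nm
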